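import Pool.Agent.helper77.BND.SpecB

/-! Row bnd:BPA (MP_376aaf_an): the pairing with a trace -/

set_option autoImplicit false

open scoped Topology Matrix
open Filter Finset

namespace Pool.Agent.BND

open Pool.Agent.CZ Pool.Agent.PV

theorem BPA_cls {A : Type} [CStarAlgebra A] (S : Subalgebra ℂ A) (t : TracialState A) (p : IdemMat S) :
    pair t (k0map S.val.toRingHom (cls p)) = ∑ a, t.τ (p.e a a : A) := by
  have h1 : k0map S.val.toRingHom (cls p) = cls (imap S.val.toRingHom p) := by
    unfold k0map cls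
    rw [QuotientAddGroup.map_mk, FreeAbelianGroup.map_of_apply]
  rw [h1]
  unfold pair cls
  rw [QuotientAddGroup.lift_mk, FreeAbelianGroup.lift_apply_of]
  rfl

theorem BPA_pair {A : Type} [CStarAlgebra A] (S : Subalgebra ℂ A) (t : TracialState A) (r r' : ℕ)
    (E : Matrix (Fin r) (Fin r) S) (hE : E * E = E) :
    pair t (k0map S.val.toRingHom (k0 E hE - r' • unitCls S)) = ∑ a, t.τ (E a a : A) - r' := by
  rw [map_sub, map_sub, map_nsmul, map_nsmul]
  have h1 : pair t (k0map S.val.toRingHom (k0 E hE)) = ∑ a, t.τ (E a a : A) := by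
    unfold k0
    rw [BPA_cls]
    simp only [Matrix.submatrix_apply]
    exact Equiv.sum_comp (Fintype.equivFin (Fin r)).symm (fun a => t.τ (E a a : A))
  have h2 : pair t (k0map S.val.toRingHom (unitCls S)) = 1 := by
    unfold unitCls
    rw [BPA_cls]
    simp [t.one]
  rw [h1, h2]
  simp

theorem BPA (hBTF : BTF_stmt) (hBLS : BLS_stmt) (hBTH : BTH_stmt) : BPA_stmt := by
  classical
  intro H _ P g B M th H' hTh _ α A _ ι u c hC S hS σ φ hφ t ht m R hR w
  obtain ⟨r, r', E, hE, T, hw, hTc, hTx, hTs⟩ := hBTF B M α A ι u c hC S hS m R hR w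
  have hlv : ∀ k, IsLv (B.L k) := hC.bs.lv
  have h0U : (0 : ℝ) ∈ U := ⟨le_rfl, zero_le_one⟩
  -- the inner sums
  have hin : ∀ d v, v < (B.L (m + d)).n →
      ∑ i ∈ range ((B.L (m + d)).h v), T (B.lp m d v 0 i) = (MZ B M m (R w) d v : ℂ) := by
    intro d v hv
    have h1 := hBLS B M hC.bs m T (R w) hTc hTs d v 0 false (lt_of_lt_of_le hv (hlv _).nN) h0U
    rw [(hlv (m + d)).vtx v hv false] at h1
    simpa using h1
  -- the function
  obtain ⟨F, hF⟩ : ∃ F : C(↥(XS B), ℂ), ∀ x, F x = T (x.1 m) := by
    refine ⟨∑ a, c 0 (E a a : A) - (r' : ℂ) • 1, fun x => ?_⟩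
    rw [hTx x]
    simp
  have hcx : (∑ a, t.τ (E a a : A)) - r' = φ.cx F := by
    have hF2 : F = ∑ a, c 0 (E a a : A) - (r' : ℂ) • 1 := by
      ext x
      rw [hF x, hTx x]
      simp
    have hsub : ∀ f f' : C(↥(XS B), ℂ), φ.cx (f - f') = φ.cx f - φ.cx f' := by
      intro f f'
      have e1 : reC (f - f') = reC f - reC f' := by
        ext x
        simp [reC]
      have e2 : imC (f - f') = imC f - imC f' := by
        ext x
        simp [imC]
      apply Complex.ext
      · simp [InvSt.cx, e1]
      · simp [InvSt.cx, e2]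
    have hadd : ∀ f f' : C(↥(XS B), ℂ), φ.cx (f + f') = φ.cx f + φ.cx f' := by
      intro f f'
      have e1 : reC (f + f') = reC f + reC f' := by
        ext x
        simp [reC]
      have e2 : imC (f + f') = imC f + imC f' := by
        ext x
        simp [imC]
      apply Complex.ext
      · simp [InvSt.cx, e1]
      · simp [InvSt.cx, e2]
    have hzero : φ.cx (0 : C(↥(XS B), ℂ)) = 0 := by
      have h1 := hsub 0 0
      rw [sub_self, sub_self] at h1
      exact h1
    have hone : φ.cx ((r' : ℂ) • (1 : C(↥(XS B), ℂ))) = r' := by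
      have e1 : reC ((r' : ℂ) • (1 : C(↥(XS B), ℂ))) = (r' : ℝ) • 1 := by
        ext x
        simp [reC]
      have e2 : imC ((r' : ℂ) • (1 : C(↥(XS B), ℂ))) = 0 := by
        ext x
        simp [imC]
      apply Complex.ext
      · simp [InvSt.cx, e1, φ.one]
      · simp [InvSt.cx, e2]
    have hsum : ∀ s : Finset (Fin r), φ.cx (∑ a ∈ s, c 0 (E a a : A)) = ∑ a ∈ s, φ.cx (c 0 (E a a : A)) := by
      intro s
      induction s using Finset.induction_on with
      | empty => simpa using hzero
      | insert a s ha ih => rw [Finset.sum_insert ha, Finset.sum_insert ha, hadd, ih]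
    rw [hF2, hsub, hone, hsum]
    congr 1
    exact Finset.sum_congr rfl fun a _ => ht _
  rw [hw, BPA_pair, hcx]
  rw [← hw]
  -- the limits
  have hlim : ∀ d, ∑ v ∈ range (B.L (m + d)).n, σ (th (m + d) v) * (MZ B M m (R w) d v : ℝ) =
      σ (∑ v ∈ range (B.L m).n, R w v • th m v) := by
    intro d
    rw [← hBTH H B M P g th H' hTh m (R w) d, map_sum]
    refine Finset.sum_congr rfl fun v _ => ?_
    rw [map_zsmul, zsmul_eq_mul, mul_comm]
  have hre : φ.φ (reC F) = σ (∑ v ∈ range (B.L m).n, R w v • th m v) := by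
    have h1 := hφ m (fun y => (T y).re) (reC F) (Complex.continuous_re.comp_continuousOn hTc) (by
      intro x
      change (F x).re = (T (x.1 m)).re
      rw [hF x])
    have h2 : ∀ d, ∑ v ∈ range (B.L (m + d)).n, σ (th (m + d) v) *
        ∑ i ∈ range ((B.L (m + d)).h v), (T (B.lp m d v 0 i)).re =
        σ (∑ v ∈ range (B.L m).n, R w v • th m v) := by
      intro d
      rw [← hlim d]
      refine Finset.sum_congr rfl fun v hv => ?_
      have h3 := congrArg Complex.re (hin d v (Finset.mem_range.1 hv))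
      rw [Complex.re_sum] at h3
      rw [h3]
      simp
    have h3 : Tendsto (fun d => ∑ v ∈ range (B.L (m + d)).n, σ (th (m + d) v) *
        ∑ i ∈ range ((B.L (m + d)).h v), (T (B.lp m d v 0 i)).re) atTop
        (𝓝 (σ (∑ v ∈ range (B.L m).n, R w v • th m v))) := by
      simp only [h2]
      exact tendsto_const_nhds
    exact tendsto_nhds_unique h1 h3
  have him : φ.φ (imC F) = 0 := by
    have h1 := hφ m (fun y => (T y).im) (imC F) (Complex.continuous_im.comp_continuousOn hTc) (by
      intro x
      change (F x).im = (T (x.1 m)).im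
      rw [hF x])
    have h2 : ∀ d, ∑ v ∈ range (B.L (m + d)).n, σ (th (m + d) v) *
        ∑ i ∈ range ((B.L (m + d)).h v), (T (B.lp m d v 0 i)).im = 0 := by
      intro d
      refine Finset.sum_eq_zero fun v hv => ?_
      have h3 := congrArg Complex.im (hin d v (Finset.mem_range.1 hv))
      rw [Complex.im_sum] at h3
      rw [h3]
      simp
    have h3 : Tendsto (fun d => ∑ v ∈ range (B.L (m + d)).n, σ (th (m + d) v) *
        ∑ i ∈ range ((B.L (m + d)).h v), (T (B.lp m d v 0 i)).im) atTop (𝓝 0) := by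
      simp only [h2]
      exact tendsto_const_nhds
    exact tendsto_nhds_unique h1 h3
  apply Complex.ext
  · rw [Complex.ofReal_re]
    exact hre
  · rw [Complex.ofReal_im]
    exact him

end Pool.Agent.BND
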