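import Pool.Agent.helper77.BND.SpecB

/-! Row bnd:BRH (MP_376aaf_an): the rank homomorphism -/

set_option autoImplicit false

open scoped Topology Matrix
open Filter Finset

namespace Pool.Agent.BND

open Pool.Agent.CZ Pool.Agent.PV

theorem BRH_ind {A : Type} [Ring A] (Q : K0 A → Prop) (h0 : Q 0) (hadd : ∀ x y, Q x → Q y → Q (x + y))
    (hneg : ∀ x, Q x → Q (-x)) (hcls : ∀ p, Q (cls p)) (w : K0 A) : Q w := by
  induction w using QuotientAddGroup.induction_on with
  | H x =>
    induction x using FreeAbelianGroup.induction_on with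
    | zero => exact h0
    | of p => exact hcls p
    | neg p hp => exact hneg _ hp
    | add x y hx hy => exact hadd _ _ hx hy

/-- the homomorphism given by integer valued traces `τ v` -/
theorem BRH_lift {S : Type} [Ring S] (τ : ℕ → S →+ ℂ) (hτ : ∀ v a b, τ v (a * b) = τ v (b * a))
    (hz : ∀ (p : IdemMat S) (v : ℕ), ∃ z : ℤ, ∑ a, τ v (p.e a a) = z) :
    ∃ R : K0 S →+ (ℕ → ℤ), ∀ (p : IdemMat S) (v : ℕ), ∑ a, τ v (p.e a a) = (R (cls p) v : ℂ) := by
  choose f hf using hz
  refine ⟨QuotientAddGroup.lift _ (FreeAbelianGroup.lift f) ?_, fun p v => ?_⟩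
  · rw [AddSubgroup.closure_le]
    rintro z (⟨p, q, ⟨x, y, h1, h2⟩, rfl⟩ | ⟨n, e, g, he, hg, hs, -, -, rfl⟩)
    · change (FreeAbelianGroup.lift f) _ = 0
      rw [map_sub, FreeAbelianGroup.lift_apply_of, FreeAbelianGroup.lift_apply_of, sub_eq_zero]
      funext v
      have h3 : ((f p v : ℤ) : ℂ) = ((f q v : ℤ) : ℂ) := by
        rw [← hf, ← hf, ← h1, ← h2]
        simp only [Matrix.mul_apply, map_sum]
        rw [Finset.sum_comm]
        exact Finset.sum_congr rfl fun i _ => Finset.sum_congr rfl fun j _ => hτ _ _ _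
      exact_mod_cast h3
    · change (FreeAbelianGroup.lift f) _ = 0
      rw [map_sub, map_sub, FreeAbelianGroup.lift_apply_of, FreeAbelianGroup.lift_apply_of,
        FreeAbelianGroup.lift_apply_of, sub_sub, sub_eq_zero]
      funext v
      have h3 : ((f ⟨n, e + g, hs⟩ v : ℤ) : ℂ) = ((f ⟨n, e, he⟩ v : ℤ) : ℂ) + ((f ⟨n, g, hg⟩ v : ℤ) : ℂ) := by
        rw [← hf, ← hf, ← hf]
        simp only [Matrix.add_apply, map_add, Finset.sum_add_distrib]
      rw [Pi.add_apply]
      exact_mod_cast h3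
  · rw [hf]
    change ((f p v : ℤ) : ℂ) = (((FreeAbelianGroup.lift f) (FreeAbelianGroup.of p) v : ℤ) : ℂ)
    rw [FreeAbelianGroup.lift_apply_of]

theorem BRH (hBTZ : BTZ_stmt) (hBEV : BEV_stmt) (hBFG : BFG_stmt) (hK0G : K0G_stmt) : BRH_stmt := by
  classical
  intro B M _ α A _ ι u c hC S hS m
  have hlv : IsLv (B.L m) := hC.bs.lv m
  have h0U : (0 : ℝ) ∈ U := ⟨le_rfl, zero_le_one⟩
  have hev : ∀ v, v < (B.L m).N → ∃ π : S m →+* Matrix (Fin ((B.L m).h v)) (Fin ((B.L m).h v)) ℂ,
      ∀ (a : S m) (G : ℕ → ℝ → ℕ → ℕ → ℂ), Fam B c m (a : A) G → ∀ i j, π a i j = G v 0 i j := by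
    intro v hv
    obtain ⟨π, hπ⟩ := hBEV B M α A ι u c hC S hS m v 0 hv h0U
    exact ⟨π, fun a G hG i j => hπ a G hG i j⟩
  have hτ : ∀ v : ℕ, ∃ τ : S m →+ ℂ, (∀ a b, τ (a * b) = τ (b * a)) ∧
      (v < (B.L m).n → ∀ (a : S m) (G : ℕ → ℝ → ℕ → ℕ → ℂ), Fam B c m (a : A) G →
        τ a = ∑ i ∈ range ((B.L m).h v), G v 0 i i) ∧ ((B.L m).n ≤ v → τ = 0) := by
    intro v
    by_cases hv : v < (B.L m).n
    · obtain ⟨π, hπ⟩ := hev v (lt_of_lt_of_le hv hlv.nN)
      refine ⟨(Matrix.traceAddMonoidHom (Fin ((B.L m).h v)) ℂ).comp π.toAddMonoidHom, ?_, ?_, fun h => absurd h (not_le.2 hv)⟩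
      · intro a b
        change Matrix.trace (π (a * b)) = Matrix.trace (π (b * a))
        rw [map_mul, map_mul, Matrix.trace_mul_comm]
      · intro _ a G hG
        change Matrix.trace (π a) = _
        unfold Matrix.trace
        simp only [Matrix.diag_apply]
        rw [Finset.sum_range]
        exact Finset.sum_congr rfl fun i _ => hπ a G hG i i
    · exact ⟨0, fun _ _ => rfl, fun h => absurd h hv, fun _ => rfl⟩
  choose τ hτ1 hτ2 hτ3 using hτ
  -- families
  have hfam : ∀ (a : S m), ∃ G : ℕ → ℝ → ℕ → ℕ → ℂ, Fam B c m (a : A) G := by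
    intro a
    obtain ⟨G, -, hG⟩ := hBFG B M α A ι u c hC m (a : A) ((hS.mem m (a : A)).1 a.2)
    exact ⟨G, hG⟩
  -- the values
  have hval : ∀ (κ : Type) [Fintype κ] (E : Matrix κ κ (S m)) (hE : E * E = E)
      (G : κ → κ → ℕ → ℝ → ℕ → ℕ → ℂ), (∀ a b, Fam B c m (E a b : A) (G a b)) → ∃ z : ℕ → ℤ,
      (∀ e s (b : Bool), e < (B.L m).N → s ∈ U →
        ∑ a : κ, ∑ i ∈ range ((B.L m).h e), G a a e s i i = ((((B.L m).W e b).map z).sum : ℤ)) ∧
      ∀ v, v < (B.L m).n → ∑ a : κ, τ v (E a a) = z v := by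
    intro κ _ E hE G hG
    obtain ⟨z, hz⟩ := hBTZ B M α A ι u c hC S hS m κ E hE G hG
    refine ⟨z, hz, fun v hv => ?_⟩
    have h1 := hz v 0 false (lt_of_lt_of_le hv hlv.nN) h0U
    rw [hlv.vtx v hv false] at h1
    simp only [List.map_cons, List.map_nil, List.sum_cons, List.sum_nil, add_zero] at h1
    rw [← h1]
    exact Finset.sum_congr rfl fun a _ => hτ2 v hv (E a a) (G a a) (hG a a)
  obtain ⟨R, hR⟩ := BRH_lift τ hτ1 (by
    intro p v
    by_cases hv : v < (B.L m).n
    · choose G hG using fun a b => hfam (p.e a b)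
      obtain ⟨z, -, hz⟩ := hval (Fin p.n) p.e p.idem G hG
      exact ⟨z v, hz v hv⟩
    · refine ⟨0, ?_⟩
      rw [hτ3 v (not_lt.1 hv)]
      simp)
  have hRk : ∀ (κ : Type) [Fintype κ] (E : Matrix κ κ (S m)) (hE : E * E = E) (v : ℕ),
      ∑ a, τ v (E a a) = (R (k0 E hE) v : ℂ) := by
    intro κ _ E hE v
    unfold k0
    rw [← hR]
    simp only [Matrix.submatrix_apply]
    exact (Equiv.sum_comp (Fintype.equivFin κ).symm (fun a => τ v (E a a))).symm
  have hmap : ∀ (f g : ℕ → ℤ) (e : ℕ) (b : Bool), e < (B.L m).N → (∀ v, v < (B.L m).n → f v = g v) →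
      (((B.L m).W e b).map f).sum = (((B.L m).W e b).map g).sum := by
    intro f g e b he hfg
    congr 1
    exact List.map_congr_left fun v hv => hfg v (hlv.mem e he b v hv)
  refine ⟨R, ?_, ?_, ?_⟩
  · intro κ _ E hE G hG e s he hs
    obtain ⟨z, hz1, hz2⟩ := hval κ E hE G hG
    rw [hz1 e s false he hs]
    have h1 : ∀ v, v < (B.L m).n → z v = R (k0 E hE) v := by
      intro v hv
      have h2 := hz2 v hv
      rw [hRk κ E hE v] at h2
      exact_mod_cast h2.symm
    rw [hmap z _ e false he h1]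
  · intro w v hv
    refine BRH_ind (fun w => R w v = 0) ?_ ?_ ?_ ?_ w
    · rw [map_zero]
      rfl
    · intro x y hx hy
      rw [map_add, Pi.add_apply, hx, hy, add_zero]
    · intro x hx
      rw [map_neg, Pi.neg_apply, hx, neg_zero]
    · intro p
      have h1 := hR p v
      rw [hτ3 v hv] at h1
      simp only [AddMonoidHom.zero_apply, Finset.sum_const_zero] at h1
      exact_mod_cast h1.symm
  · intro w e he
    refine BRH_ind (fun w => (((B.L m).W e false).map (R w)).sum = (((B.L m).W e true).map (R w)).sum) ?_ ?_ ?_ ?_ w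
    · rw [map_zero]
      have h1 : ∀ b : Bool, (((B.L m).W e b).map (0 : ℕ → ℤ)).sum = 0 := by
        intro b
        induction (B.L m).W e b with
        | nil => simp
        | cons a l ih =>
          rw [List.map_cons, List.sum_cons, ih, Pi.zero_apply]
          ring
      rw [h1, h1]
    · intro x y hx hy
      rw [map_add]
      have h1 : ∀ b : Bool, (((B.L m).W e b).map (R x + R y)).sum =
          (((B.L m).W e b).map (R x)).sum + (((B.L m).W e b).map (R y)).sum := by
        intro b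
        rw [← List.sum_map_add]
        rfl
      rw [h1, h1, hx, hy]
    · intro x hx
      rw [map_neg]
      have h1 : ∀ b : Bool, (((B.L m).W e b).map (-R x)).sum = -(((B.L m).W e b).map (R x)).sum := by
        intro b
        induction (B.L m).W e b with
        | nil => simp
        | cons a l ih =>
          rw [List.map_cons, List.sum_cons, List.map_cons, List.sum_cons, ih, Pi.neg_apply]
          ring
      rw [h1, h1, hx]
    · intro p
      choose G hG using fun a b => hfam (p.e a b)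
      obtain ⟨z, hz1, hz2⟩ := hval (Fin p.n) p.e p.idem G hG
      have h1 : ∀ v, v < (B.L m).n → R (cls p) v = z v := by
        intro v hv
        have h2 := hz2 v hv
        rw [hR p v] at h2
        exact_mod_cast h2
      rw [hmap _ z e false he h1, hmap _ z e true he h1]
      have h2 := hz1 e 0 false he h0U
      have h3 := hz1 e 0 true he h0U
      rw [h2] at h3
      exact_mod_cast h3

end Pool.Agent.BND
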