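import Pool.Agent.helper77.BND.SpecY

/-! Row bnd:YIN (MP_376aaf_an): the quotient of the two units lies in the orbit-breaking algebra -/

set_option autoImplicit false

open scoped Topology Matrix
open Filter

namespace Pool.Agent.BND

open Pool.Agent.CZ Pool.Agent.PV

/-- the unit `ψ(E V') U + 1 - ψ E` -/
theorem YIN_unit {S R : Type} [Ring S] [Ring R] (ψ : S →+* R) (lam : S →+* S) (U : Rˣ)
    (hc : ∀ b, (U : R) * ψ b = ψ (lam b) * U) (E V V' : S) (hE : E * E = E) (hl : V * V' = 1)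
    (hr : V' * V = 1) (hconj : lam E * V = V * E) :
    ∃ v : Rˣ, (v : R) = ψ (E * V') * U + (1 - ψ E) ∧
      ((v⁻¹ : Rˣ) : R) = ((U⁻¹ : Rˣ) : R) * ψ (V * E) + (1 - ψ E) := by
  have hc' : ∀ b, ψ b * ((U⁻¹ : Rˣ) : R) = ((U⁻¹ : Rˣ) : R) * ψ (lam b) := by
    intro b
    calc ψ b * ((U⁻¹ : Rˣ) : R) = ((U⁻¹ : Rˣ) : R) * ((U : R) * ψ b) * ((U⁻¹ : Rˣ) : R) := by
          rw [← mul_assoc, Units.inv_mul, one_mul]
      _ = ((U⁻¹ : Rˣ) : R) * (ψ (lam b) * (U : R)) * ((U⁻¹ : Rˣ) : R) := by rw [hc b]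
      _ = ((U⁻¹ : Rˣ) : R) * ψ (lam b) := by
          rw [mul_assoc, mul_assoc, Units.mul_inv, mul_one]
  have hVE : E * V' = V' * lam E := by
    calc E * V' = V' * (V * E) * V' := by rw [← mul_assoc, hr, one_mul]
      _ = V' * (lam E * V) * V' := by rw [hconj]
      _ = V' * lam E := by rw [mul_assoc, mul_assoc, hl, mul_one]
  have hlE : lam E * lam E = lam E := by rw [← map_mul, hE]
  have z1 : E * V' * lam (1 - E) = 0 := by
    rw [hVE, map_sub, map_one, mul_sub, mul_one, mul_assoc, hlE, sub_self]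
  have z2 : lam (1 - E) * (V * E) = 0 := by
    rw [← hconj, map_sub, map_one, sub_mul, one_mul, ← mul_assoc, hlE, sub_self]
  have e1 : E * V' * (V * E) = E := by
    rw [mul_assoc, ← mul_assoc V', hr, one_mul, hE]
  have e2 : V * E * (E * V') = lam E := by
    rw [mul_assoc, ← mul_assoc E, hE, ← mul_assoc, ← hconj, mul_assoc, hl, mul_one]
  have z3 : V * E * (1 - E) = 0 := by
    rw [mul_sub, mul_one, mul_assoc, hE, sub_self]
  have z4 : (1 - E) * (E * V') = 0 := by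
    rw [← mul_assoc, sub_mul, one_mul, hE, sub_self, zero_mul]
  have e5 : (1 - ψ E) * (1 - ψ E) = 1 - ψ E := by
    have h1 : (1 - E) * (1 - E) = 1 - E := by
      rw [mul_sub, mul_one, sub_mul, one_mul, hE, sub_self, sub_zero]
    have h2 := congrArg ψ h1
    rwa [map_mul, map_sub, map_one] at h2
  have e6 : (1 : R) - ψ E = ψ (1 - E) := by rw [map_sub, map_one]
  refine ⟨⟨ψ (E * V') * U + (1 - ψ E), ((U⁻¹ : Rˣ) : R) * ψ (V * E) + (1 - ψ E), ?_, ?_⟩, rfl, rfl⟩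
  · rw [mul_add, add_mul, add_mul, e5]
    have a1 : ψ (E * V') * (U : R) * (((U⁻¹ : Rˣ) : R) * ψ (V * E)) = ψ E := by
      rw [mul_assoc, ← mul_assoc (U : R), Units.mul_inv, one_mul, ← map_mul, e1]
    have a2 : ψ (E * V') * (U : R) * (1 - ψ E) = 0 := by
      rw [e6, mul_assoc, hc, ← mul_assoc, ← map_mul, z1, map_zero, zero_mul]
    have a3 : (1 - ψ E) * (((U⁻¹ : Rˣ) : R) * ψ (V * E)) = 0 := by
      rw [e6, ← mul_assoc, hc', mul_assoc, ← map_mul, z2, map_zero, mul_zero]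
    rw [a1, a2, a3]
    abel
  · rw [mul_add, add_mul, add_mul, e5]
    have a1 : ((U⁻¹ : Rˣ) : R) * ψ (V * E) * (ψ (E * V') * (U : R)) = ψ E := by
      rw [mul_assoc, ← mul_assoc (ψ (V * E)), ← map_mul, e2, ← hc, ← mul_assoc, Units.inv_mul, one_mul]
    have a2 : ((U⁻¹ : Rˣ) : R) * ψ (V * E) * (1 - ψ E) = 0 := by
      rw [e6, mul_assoc, ← map_mul, z3, map_zero, mul_zero]
    have a3 : (1 - ψ E) * (ψ (E * V') * (U : R)) = 0 := by
      rw [e6, ← mul_assoc, ← map_mul, z4, map_zero, zero_mul]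
    rw [a1, a2, a3]
    abel

/-- the algebra of the construction -/
theorem YIN_alg {S R : Type} [Ring S] [Ring R] (ψ : S →+* R) (lam : S →+* S) (U : Rˣ)
    (hc : ∀ b, (U : R) * ψ b = ψ (lam b) * U) (E V V' P : S) (hE : E * E = E) (hl : V * V' = 1)
    (hr : V' * V = 1) (hconj : lam E * V = V * E) (hP : P * P = P) (hlP : lam P = P) :
    ∃ v vP : Rˣ, (v : R) = ψ (E * V') * U + (1 - ψ E) ∧ (vP : R) = ψ P * U + (1 - ψ P) ∧
      ((v * vP⁻¹ : Rˣ) : R) = ψ (E * V' * P + (1 - E) * (1 - P)) + ψ (E * V' * (1 - P)) * U +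
        ((U⁻¹ : Rˣ) : R) * ψ (lam ((1 - E) * P)) ∧
      (((v * vP⁻¹)⁻¹ : Rˣ) : R) = ψ (P * (V * E) + (1 - P) * (1 - E)) + ψ (P * lam (1 - E)) * U +
        ((U⁻¹ : Rˣ) : R) * ψ ((1 - P) * (V * E)) := by
  have hc' : ∀ b, ψ b * ((U⁻¹ : Rˣ) : R) = ((U⁻¹ : Rˣ) : R) * ψ (lam b) := by
    intro b
    calc ψ b * ((U⁻¹ : Rˣ) : R) = ((U⁻¹ : Rˣ) : R) * ((U : R) * ψ b) * ((U⁻¹ : Rˣ) : R) := by
          rw [← mul_assoc, Units.inv_mul, one_mul]
      _ = ((U⁻¹ : Rˣ) : R) * (ψ (lam b) * (U : R)) * ((U⁻¹ : Rˣ) : R) := by rw [hc b]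
      _ = ((U⁻¹ : Rˣ) : R) * ψ (lam b) := by
          rw [mul_assoc, mul_assoc, Units.mul_inv, mul_one]
  obtain ⟨v, hv, hv'⟩ := YIN_unit ψ lam U hc E V V' hE hl hr hconj
  obtain ⟨w, hw, hw'⟩ := YIN_unit ψ lam U hc P 1 1 hP (one_mul 1) (one_mul 1) (by rw [hlP, mul_one, one_mul])
  rw [mul_one] at hw
  rw [one_mul] at hw'
  have e6 : ∀ a : S, (1 : R) - ψ a = ψ (1 - a) := fun a => by rw [map_sub, map_one]
  have hl1 : lam (1 - P) = 1 - P := by rw [map_sub, map_one, hlP]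
  refine ⟨v, w, hv, hw, ?_, ?_⟩
  · rw [Units.val_mul, hv, hw', mul_add, add_mul, add_mul, e6, e6]
    have a1 : ψ (E * V') * (U : R) * (((U⁻¹ : Rˣ) : R) * ψ P) = ψ (E * V' * P) := by
      rw [mul_assoc, ← mul_assoc (U : R), Units.mul_inv, one_mul, ← map_mul]
    have a2 : ψ (E * V') * (U : R) * ψ (1 - P) = ψ (E * V' * (1 - P)) * U := by
      rw [mul_assoc, hc, hl1, ← mul_assoc, ← map_mul]
    have a3 : ψ (1 - E) * (((U⁻¹ : Rˣ) : R) * ψ P) = ((U⁻¹ : Rˣ) : R) * ψ (lam ((1 - E) * P)) := by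
      rw [← mul_assoc, hc', mul_assoc, ← map_mul]
      congr 2
      rw [map_mul, hlP]
    rw [a1, a2, a3, ← map_mul, map_add]
    abel
  · rw [mul_inv_rev, inv_inv, Units.val_mul, hw, hv', mul_add, add_mul, add_mul, e6, e6]
    have a1 : ψ P * (U : R) * (((U⁻¹ : Rˣ) : R) * ψ (V * E)) = ψ (P * (V * E)) := by
      rw [mul_assoc, ← mul_assoc (U : R), Units.mul_inv, one_mul, ← map_mul]
    have a2 : ψ P * (U : R) * ψ (1 - E) = ψ (P * lam (1 - E)) * U := by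
      rw [mul_assoc, hc, ← mul_assoc, ← map_mul]
    have a3 : ψ (1 - P) * (((U⁻¹ : Rˣ) : R) * ψ (V * E)) = ((U⁻¹ : Rˣ) : R) * ψ ((1 - P) * (V * E)) := by
      rw [← mul_assoc, hc', hl1, mul_assoc, ← map_mul]
    rw [a1, a2, a3, ← map_mul, map_add]
    abel

/-- evaluation at the point `t` of the circle and the point `x` -/
noncomputable def YIN_ev {X : Type} [TopologicalSpace X] [CompactSpace X] (κ : Type) [Fintype κ] [DecidableEq κ]
    (t : UnitAddCircle) (x : X) : Matrix κ κ C(UnitAddCircle, C(X, ℂ)) →+* Matrix κ κ ℂ :=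
  (((evC ℂ x).comp (evC C(X, ℂ) t)).toRingHom).mapMatrix

theorem YIN_ev_apply {X : Type} [TopologicalSpace X] [CompactSpace X] (κ : Type) [Fintype κ] [DecidableEq κ]
    (t : UnitAddCircle) (x : X) (M : Matrix κ κ C(UnitAddCircle, C(X, ℂ))) (i j : κ) :
    YIN_ev κ t x M i j = M i j t x := rfl

theorem YIN_U {A : Type} [CStarAlgebra A] (κ : Type) [Fintype κ] [DecidableEq κ] (u : unitary A)
    (M : Matrix κ κ C(UnitAddCircle, A)) (i j : κ) (t : UnitAddCircle) :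
    (M * ((uM κ (lu (Unitary.toUnits u)) : (Matrix κ κ C(UnitAddCircle, A))ˣ) :
      Matrix κ κ C(UnitAddCircle, A))) i j t = M i j t * (u : A) := by
  have e : ((uM κ (lu (Unitary.toUnits u)) : (Matrix κ κ C(UnitAddCircle, A))ˣ) :
      Matrix κ κ C(UnitAddCircle, A)) =
      Matrix.diagonal (fun _ => ((lu (Unitary.toUnits u) : (C(UnitAddCircle, A))ˣ) : C(UnitAddCircle, A))) := rfl
  rw [e, Matrix.mul_diagonal]
  rfl

theorem YIN_U' {A : Type} [CStarAlgebra A] (κ : Type) [Fintype κ] [DecidableEq κ] (u : unitary A)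
    (M : Matrix κ κ C(UnitAddCircle, A)) (i j : κ) (t : UnitAddCircle) :
    (((uM κ (lu (Unitary.toUnits u)) : (Matrix κ κ C(UnitAddCircle, A))ˣ) :
      Matrix κ κ C(UnitAddCircle, A)) * M) i j t = (u : A) * M i j t := by
  have e : ((uM κ (lu (Unitary.toUnits u)) : (Matrix κ κ C(UnitAddCircle, A))ˣ) :
      Matrix κ κ C(UnitAddCircle, A)) =
      Matrix.diagonal (fun _ => ((lu (Unitary.toUnits u) : (C(UnitAddCircle, A))ˣ) : C(UnitAddCircle, A))) := rfl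
  rw [e, Matrix.diagonal_mul]
  rfl

theorem YIN_Ui {A : Type} [CStarAlgebra A] (κ : Type) [Fintype κ] [DecidableEq κ] (u : unitary A)
    (M : Matrix κ κ C(UnitAddCircle, A)) (i j : κ) (t : UnitAddCircle) :
    ((((uM κ (lu (Unitary.toUnits u)))⁻¹ : (Matrix κ κ C(UnitAddCircle, A))ˣ) :
      Matrix κ κ C(UnitAddCircle, A)) * M) i j t = star (u : A) * M i j t := by
  have e : (((uM κ (lu (Unitary.toUnits u)))⁻¹ : (Matrix κ κ C(UnitAddCircle, A))ˣ) :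
      Matrix κ κ C(UnitAddCircle, A)) =
      Matrix.diagonal (fun _ => (((lu (Unitary.toUnits u))⁻¹ : (C(UnitAddCircle, A))ˣ) : C(UnitAddCircle, A))) := rfl
  rw [e, Matrix.diagonal_mul]
  rfl

theorem YIN (hYLM : YLM_stmt) (hDZP : DZP_stmt) : YIN_stmt := by
  intro X _ _ _ α A _ ι u c hcov p AY hOBA h h' hi hv κ _ _ E V V' hYD
  have hZP := hDZP X α A ι u c hcov
  obtain ⟨ψ, hψ⟩ : ∃ ψ : Matrix (κ ⊕ κ) (κ ⊕ κ) C(UnitAddCircle, C(X, ℂ)) →+*
      Matrix (κ ⊕ κ) (κ ⊕ κ) C(UnitAddCircle, A),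
      ψ = (cmpC UnitAddCircle ι.toAlgHom hi).toRingHom.mapMatrix := ⟨_, rfl⟩
  obtain ⟨lam, hlam⟩ : ∃ lam : Matrix (κ ⊕ κ) (κ ⊕ κ) C(UnitAddCircle, C(X, ℂ)) →+*
      Matrix (κ ⊕ κ) (κ ⊕ κ) C(UnitAddCircle, C(X, ℂ)),
      lam = ((lal (alC α) h h' : C(UnitAddCircle, C(X, ℂ)) →ₐ[ℂ] C(UnitAddCircle, C(X, ℂ))).toRingHom).mapMatrix :=
    ⟨_, rfl⟩
  have hψa : ∀ M i j t, ψ M i j t = ι (M i j t) := by
    intro M i j t
    rw [hψ]
    rfl
  have hlama : ∀ M i j t x, lam M i j t x = M i j t (α.symm x) := by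
    intro M i j t x
    rw [hlam]
    rfl
  obtain ⟨U, hU⟩ : ∃ U : (Matrix (κ ⊕ κ) (κ ⊕ κ) C(UnitAddCircle, A))ˣ, U = uM (κ ⊕ κ) (lu (Unitary.toUnits u)) :=
    ⟨_, rfl⟩
  obtain ⟨P, hPdef⟩ : ∃ P : Matrix (κ ⊕ κ) (κ ⊕ κ) C(UnitAddCircle, C(X, ℂ)), P = Matrix.fromBlocks 1 0 0 0 := ⟨_, rfl⟩
  have hc : ∀ b, (U : Matrix (κ ⊕ κ) (κ ⊕ κ) C(UnitAddCircle, A)) * ψ b = ψ (lam b) * U := by
    intro b
    ext i j t
    rw [hU, YIN_U', YIN_U, hψa, hψa]
    have h1 := hZP.cov (b i j t)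
    have h2 : lam b i j t = alC α (b i j t) := by
      rw [hlam]
      rfl
    rw [h2]
    exact h1
  have hP : P * P = P := by
    rw [hPdef, Matrix.fromBlocks_multiply]
    simp
  have hlP : lam P = P := by
    rw [hPdef, hlam]
    simp only [RingHom.mapMatrix_apply, Matrix.fromBlocks_map]
    simp
  have hconj : lam E * V = V * E := by
    rw [hlam]
    exact hYD.conj
  obtain ⟨v, vP, hv1, hvP1, hq, hqi⟩ := YIN_alg ψ lam U hc E V V' P hYD.idem hYD.l hYD.r hconj hP hlP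
  -- near `p`
  obtain ⟨P0, hP0⟩ : ∃ P0 : Matrix (κ ⊕ κ) (κ ⊕ κ) ℂ, P0 = Matrix.fromBlocks 1 0 0 0 := ⟨_, rfl⟩
  have hP00 : P0 * P0 = P0 := by
    rw [hP0, Matrix.fromBlocks_multiply]
    simp
  have evP : ∀ t (x : X), YIN_ev (κ ⊕ κ) t x P = P0 := by
    intro t x
    rw [hPdef, hP0]
    unfold YIN_ev
    simp only [RingHom.mapMatrix_apply, Matrix.fromBlocks_map]
    simp
  have evE : ∀ᶠ x in 𝓝 p, ∀ t, YIN_ev (κ ⊕ κ) t x E = P0 := by
    filter_upwards [hYD.ep] with x hx t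
    ext i j
    rw [YIN_ev_apply, hx i j t, hP0]
  have evV : ∀ᶠ x in 𝓝 p, ∀ t, YIN_ev (κ ⊕ κ) t x V = 1 := by
    filter_upwards [hYD.vp] with x hx t
    ext i j
    rw [YIN_ev_apply, hx i j t]
  have evV' : ∀ᶠ x in 𝓝 p, ∀ t, YIN_ev (κ ⊕ κ) t x V' = 1 := by
    filter_upwards [hYD.vp'] with x hx t
    ext i j
    rw [YIN_ev_apply, hx i j t]
  have evlam : ∀ t (x : X) M, YIN_ev (κ ⊕ κ) t x (lam M) = YIN_ev (κ ⊕ κ) t (α.symm x) M := by
    intro t x M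
    ext i j
    rw [YIN_ev_apply, YIN_ev_apply, hlama]
  have evEq : ∀ᶠ x in 𝓝 p, ∀ t, YIN_ev (κ ⊕ κ) t (α.symm x) E = P0 := by
    have h1 : Tendsto (fun x => α.symm x) (𝓝 p) (𝓝 (α.symm p)) := α.symm.continuous.tendsto p
    filter_upwards [h1.eventually hYD.eq] with x hx t
    ext i j
    rw [YIN_ev_apply, hx i j t, hP0]
  -- lifting
  have key : ∀ f g k : Matrix (κ ⊕ κ) (κ ⊕ κ) C(UnitAddCircle, C(X, ℂ)),
      (∀ᶠ x in 𝓝 p, ∀ t, YIN_ev (κ ⊕ κ) t x g = 0 ∧ YIN_ev (κ ⊕ κ) t x k = 0) →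
      ∃ W : Matrix (κ ⊕ κ) (κ ⊕ κ) C(UnitAddCircle, AY),
        W.map (cmpC UnitAddCircle AY.val hv) = ψ f + ψ g * U +
          ((U⁻¹ : (Matrix (κ ⊕ κ) (κ ⊕ κ) C(UnitAddCircle, A))ˣ) : Matrix (κ ⊕ κ) (κ ⊕ κ) C(UnitAddCircle, A)) * ψ k := by
    intro f g k hn
    have h1 : ∀ i j, ∃ w : C(UnitAddCircle, AY), ∀ t, (w t : A) = ι (f i j t) + ι (g i j t) * (u : A) +
        star (u : A) * ι (k i j t) := by
      intro i j
      refine hYLM X A ι u p AY hOBA (f i j) (g i j) (k i j) ?_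
      filter_upwards [hn] with x hx t
      have h2 := hx t
      refine ⟨?_, ?_⟩
      · rw [← YIN_ev_apply, h2.1]
        rfl
      · rw [← YIN_ev_apply, h2.2]
        rfl
    choose W hW using h1
    refine ⟨Matrix.of W, ?_⟩
    ext i j t
    rw [Matrix.add_apply, Matrix.add_apply, ContinuousMap.add_apply, ContinuousMap.add_apply, hU, YIN_U, YIN_Ui,
      hψa, hψa, hψa]
    exact hW i j t
  obtain ⟨W1, hW1⟩ := key (E * V' * P + (1 - E) * (1 - P)) (E * V' * (1 - P)) (lam ((1 - E) * P)) (by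
    filter_upwards [evE, evV', evEq] with x h1 h2 h3 t
    rw [evlam]
    simp only [map_mul, map_sub, h1 t, h2 t, h3 t, evP, mul_one, mul_sub, sub_mul, one_mul, hP00, sub_self]
    exact ⟨trivial, trivial⟩)
  obtain ⟨W2, hW2⟩ := key (P * (V * E) + (1 - P) * (1 - E)) (P * lam (1 - E)) ((1 - P) * (V * E)) (by
    filter_upwards [evE, evV, evEq] with x h1 h2 h3 t
    have h4 := evlam t x E
    simp only [map_mul, h4, map_sub, map_one, h1 t, h2 t, h3 t, evP, mul_one, mul_sub, sub_mul, one_mul, hP00, sub_self]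
    exact ⟨trivial, trivial⟩)
  rw [← hq] at hW1
  rw [← hqi] at hW2
  have hinj : ∀ M M' : Matrix (κ ⊕ κ) (κ ⊕ κ) C(UnitAddCircle, AY),
      (cmpC UnitAddCircle AY.val hv).toRingHom.mapMatrix M = (cmpC UnitAddCircle AY.val hv).toRingHom.mapMatrix M' →
      M = M' := by
    intro M M' hM
    ext i j t
    have h1 := congrArg (fun N => N i j t) hM
    exact h1
  have h12 : W1 * W2 = 1 := by
    apply hinj
    rw [map_mul, map_one]
    change W1.map (cmpC UnitAddCircle AY.val hv) * W2.map (cmpC UnitAddCircle AY.val hv) = 1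
    rw [hW1, hW2, Units.mul_inv]
  have h21 : W2 * W1 = 1 := by
    apply hinj
    rw [map_mul, map_one]
    change W2.map (cmpC UnitAddCircle AY.val hv) * W1.map (cmpC UnitAddCircle AY.val hv) = 1
    rw [hW1, hW2, Units.inv_mul]
  refine ⟨v, vP, ⟨W1, W2, h12, h21⟩, ?_, ?_, ?_⟩
  · rw [hv1, hψ, hU]
    rfl
  · rw [hvP1, hψ, hU, hPdef]
    rfl
  · refine Units.ext ?_
    exact hW1

end Pool.Agent.BND
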